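import Pool.Agent.UMG.StmtsB

/-!
# Row PCE of squad UMG
-/

set_option autoImplicit false

namespace Pool.Agent.UMG.B.H8

open Finset Pool.Agent.UMG Pool.Agent.UMG.B

theorem step1 (i : ℕ) (A : Type) (v : Fin (i + 1) ⊕ A) :
    oe (i + 1) A (Equiv.optionCongr (oe i A)
      (((oe i A).symm v).elim none (fun a => some (some a)))) =
      Sum.elim (fun t : Fin (i + 1) => Sum.inl (Fin.cases (0 : Fin (i + 2))
        (fun j : Fin i => j.succ.succ) t)) Sum.inr v := by
  rcases v with t | a
  · refine Fin.cases ?_ (fun j => ?_) t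
    · rfl
    · rfl
  · rfl

/-- row PCE -/
theorem pce : PceStmt := by
  intro k Λ hΛ i A π' ρ σ'
  refine hΛ (Option (Fin i ⊕ A)) (Fin (i + 1) ⊕ A) (oe i A) (fun _ => 1) (ins (cyp i π'))
    (fun x => x.elim 1 (cys i ρ σ')) (cyp (i + 1) π') (cys (i + 1) ρ σ') ?_ ?_
  · intro x
    apply (oe (i + 1) A).injective
    have hr : oe (i + 1) A (cyp (i + 1) π' (Equiv.optionCongr (oe i A) x)) =
        Equiv.sumCongr (finRotate (i + 1 + 1)) π'
          (oe (i + 1) A (Equiv.optionCongr (oe i A) x)) := by
      unfold cyp
      rw [Equiv.permCongr_apply, Equiv.symm_symm, Equiv.apply_symm_apply]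
    rw [hr]
    rcases x with _ | y
    · have h1 : oe (i + 1) A (Equiv.optionCongr (oe i A) (ins (cyp i π') none)) =
          Sum.inl (Fin.succ 0) := rfl
      have h2 : oe (i + 1) A (Equiv.optionCongr (oe i A) none) = Sum.inl 0 := rfl
      rw [h1, h2, Equiv.sumCongr_apply, Sum.map_inl]
      have h3 : (Fin.succ 0 : Fin (i + 1 + 1)) = finRotate (i + 1 + 1) 0 := by
        apply Fin.ext
        rw [finRotate_val, Fin.val_succ, Fin.val_zero, Fin.val_zero, Nat.mod_eq_of_lt (by omega)]
      rw [h3]
    · have h1 : ins (cyp i π') (some y) = ((oe i A).symm (Equiv.sumCongr (finRotate (i + 1)) π'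
          (oe i A y))).elim none (fun a => some (some a)) := rfl
      rw [h1, step1]
      have h2 : Equiv.optionCongr (oe i A) (some y) = some (oe i A y) := rfl
      rw [h2]
      rcases oe i A y with t | a
      · have h3 : oe (i + 1) A (some (Sum.inl t)) = Sum.inl t.succ := rfl
        rw [h3, Equiv.sumCongr_apply, Sum.map_inl, Sum.elim_inl, Equiv.sumCongr_apply, Sum.map_inl]
        congr 1
        by_cases ht : (t : ℕ) = i
        · have h4 : finRotate (i + 1) t = 0 := by
            apply Fin.ext
            rw [finRotate_val, ht, Nat.mod_self, Fin.val_zero]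
          rw [h4, Fin.cases_zero]
          apply Fin.ext
          rw [finRotate_val, Fin.val_succ, ht, Nat.mod_self, Fin.val_zero]
        · have ht2 : (t : ℕ) < i := by
            have := t.2
            omega
          have h4 : finRotate (i + 1) t = (⟨t, ht2⟩ : Fin i).succ := by
            apply Fin.ext
            rw [finRotate_val, Fin.val_succ, Nat.mod_eq_of_lt (by omega)]
          rw [h4, Fin.cases_succ]
          apply Fin.ext
          rw [finRotate_val, Fin.val_succ, Fin.val_succ, Fin.val_succ,
            Nat.mod_eq_of_lt (by omega)]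
      · rfl
  · intro x
    show (1 : Equiv.Perm (Fin k)) * _ = _ * 1
    rw [one_mul, mul_one]
    rcases x with _ | y
    · show (1 : Equiv.Perm (Fin k)) = lst (i + 1) ρ 0
      unfold lst
      rw [if_neg]
      intro h
      have := congrArg Fin.val h
      rw [Fin.val_zero, Fin.val_last] at this
      omega
    · show Sum.elim (lst i ρ) σ' (oe i A y) =
        Sum.elim (lst (i + 1) ρ) σ' (oe (i + 1) A (some (oe i A y)))
      rcases oe i A y with t | a
      · show lst i ρ t = lst (i + 1) ρ t.succ
        unfold lst
        rw [← Fin.succ_last]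
        by_cases h : t = Fin.last i
        · rw [if_pos h, if_pos (by rw [h])]
        · rw [if_neg h, if_neg fun h' => h (Fin.succ_injective _ h')]
      · rfl

end Pool.Agent.UMG.B.H8
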